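import Mathlib
import Pool.Agent.H46.Faith.Menger
import Pool.Agent.H46.Faith.Orient

set_option autoImplicit false

/-! Pairs of colours: the copies of the chords get pairs of `n` colours such that every cut of a
laminar family which meets at least `n - 1` of them sees all colours. -/

namespace Pool.Agent.H31.Near

open Module Pool.Agent.H46.Faith

set_option linter.unusedSectionVars false

variable {V C : Type} [Fintype V] [DecidableEq V] [Fintype C] [DecidableEq C]

/-- the vector of a pair of colours -/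
def pv {n : ℕ} (i j : Fin n) : Fin n → ZMod 2 := Pi.single i 1 + Pi.single j 1

lemma pv_comm {n : ℕ} (i j : Fin n) : pv i j = pv j i := add_comm _ _

lemma pv_add {n : ℕ} (i j k : Fin n) : pv i j + pv j k = pv i k := by
  unfold pv
  have h : (Pi.single j 1 : Fin n → ZMod 2) + Pi.single j 1 = 0 := dbl _
  calc (Pi.single i 1 + Pi.single j 1 : Fin n → ZMod 2) + (Pi.single j 1 + Pi.single k 1)
      = Pi.single i 1 + (Pi.single j 1 + Pi.single j 1) + Pi.single k 1 := by abel
    _ = _ := by rw [h, add_zero]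

lemma pv_trans {n : ℕ} (U : Submodule (ZMod 2) (Fin n → ZMod 2)) {i j k : Fin n}
    (h1 : pv i j ∈ U) (h2 : pv j k ∈ U) : pv i k ∈ U := by
  rw [← pv_add i j k]
  exact add_mem h1 h2

lemma pair_avoid {n : ℕ} (U1 U2 : Submodule (ZMod 2) (Fin n → ZMod 2))
    (h1 : ∃ i j : Fin n, pv i j ∉ U1) (h2 : ∃ i j : Fin n, pv i j ∉ U2) :
    ∃ i j : Fin n, pv i j ∉ U1 ∧ pv i j ∉ U2 := by
  by_contra hcon
  push Not at hcon
  obtain ⟨i, j, hij⟩ := h1
  have hij2 := hcon i j hij
  obtain ⟨a, b, hab⟩ := h2
  obtain ⟨k, hk⟩ : ∃ k : Fin n, pv k i ∉ U2 := by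
    by_contra h
    push Not at h
    apply hab
    exact pv_trans U2 (h a) (by rw [pv_comm]; exact h b)
  have hk1 : pv k i ∈ U1 := by
    by_contra h
    exact hk (hcon k i h)
  have hkj : pv k j ∉ U2 := by
    intro h
    exact hk (pv_trans U2 h (by rw [pv_comm]; exact hij2))
  have hkj1 : pv k j ∈ U1 := by
    by_contra h
    exact hkj (hcon k j h)
  exact hij (pv_trans U1 (by rw [pv_comm]; exact hk1) hkj1)

/-- the even-weight space -/
def EW (n : ℕ) : Submodule (ZMod 2) (Fin n → ZMod 2) := LinearMap.ker (cf (Finset.univ))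

lemma finrank_EW_lt (n : ℕ) (hn : 1 ≤ n) : finrank (ZMod 2) (EW n) < n := by
  have h1 : EW n < ⊤ := by
    rw [lt_top_iff_ne_top]
    intro h
    have h2 : (Pi.single ⟨0, hn⟩ 1 : Fin n → ZMod 2) ∈ EW n := by rw [h]; trivial
    unfold EW at h2
    rw [LinearMap.mem_ker, cf_pt] at h2
    simp at h2
  have := Submodule.finrank_lt_finrank_of_lt h1
  rwa [finrank_top, Module.finrank_fintype_fun_eq_card, Fintype.card_fin] at this

lemma le_finrank_EW (n : ℕ) : n - 1 ≤ finrank (ZMod 2) (EW n) := by
  have h1 := LinearMap.finrank_range_add_finrank_ker (cf (Finset.univ : Finset (Fin n)))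
  rw [Module.finrank_fintype_fun_eq_card, Fintype.card_fin] at h1
  have h2 : finrank (ZMod 2) (LinearMap.range (cf (Finset.univ : Finset (Fin n)))) ≤ 1 := by
    have := Submodule.finrank_le (LinearMap.range (cf (Finset.univ : Finset (Fin n))))
    rwa [Module.finrank_self] at this
  unfold EW
  omega

lemma EW_le (n : ℕ) (U : Submodule (ZMod 2) (Fin n → ZMod 2)) (h : ∀ i j : Fin n, pv i j ∈ U) :
    EW n ≤ U := by
  rcases Nat.eq_zero_or_pos n with rfl | hn
  · intro v _
    have : v = 0 := Subsingleton.elim _ _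
    rw [this]; exact zero_mem _
  intro v hv
  unfold EW at hv
  rw [LinearMap.mem_ker, cf_apply] at hv
  have h1 : v = ∑ i, v i • pv i ⟨0, hn⟩ := by
    unfold pv
    simp only [smul_add, Finset.sum_add_distrib]
    rw [← Finset.sum_smul, hv, zero_smul, add_zero]
    funext j
    rw [Finset.sum_apply]
    simp only [Pi.smul_apply, Pi.single_apply, smul_eq_mul, mul_ite, mul_one, mul_zero]
    simp
  rw [h1]
  exact sum_mem (fun i _ => Submodule.smul_mem _ _ (h i _))

lemma exists_pv_notMem {n : ℕ} (U : Submodule (ZMod 2) (Fin n → ZMod 2))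
    (h : finrank (ZMod 2) U < n - 1) : ∃ i j : Fin n, pv i j ∉ U := by
  by_contra hcon
  push Not at hcon
  have h1 := Submodule.finrank_mono (EW_le n U hcon)
  have h2 := le_finrank_EW n
  omega

lemma sp_le_EW {n : ℕ} (p r : C → Fin n) (A : Finset C) : sp p r A ≤ EW n := by
  unfold sp
  rw [Submodule.span_le]
  rintro y ⟨e, _, rfl⟩
  rw [SetLike.mem_coe, EW, LinearMap.mem_ker, cf_bd]
  simp

lemma colour_seen {n : ℕ} (hn : 2 ≤ n) (p r : C → Fin n) (A : Finset C)
    (h : n - 1 ≤ finrank (ZMod 2) (sp p r A)) (c : Fin n) : ∃ e ∈ A, p e = c ∨ r e = c := by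
  have h1 := finrank_EW_lt n (by omega)
  have h2 : sp p r A = EW n :=
    Submodule.eq_of_le_of_finrank_le (sp_le_EW p r A) (by omega)
  obtain ⟨j, hj⟩ : ∃ j : Fin n, j ≠ c := by
    by_cases hc : c.val = 0
    · exact ⟨⟨1, by omega⟩, fun h => by have := congrArg Fin.val h; simp at this; omega⟩
    · exact ⟨⟨0, by omega⟩, fun h => hc (by rw [← h])⟩
  have h3 : Conn p r A c j := by
    unfold Conn
    rw [h2, EW, LinearMap.mem_ker, map_add, cf_pt, cf_pt]
    simp
    decide
  obtain ⟨e, he, hex⟩ := h3.cut {c} (by simp) (by simp [hj])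
  refine ⟨e, he, ?_⟩
  rw [mem_dl, Finset.mem_singleton, Finset.mem_singleton] at hex
  by_contra hcon
  push Not at hcon
  exact hex (iff_of_false hcon.1 hcon.2)

lemma sp_update {n : ℕ} (p r : C → Fin n) (e : C) (x y : Fin n) (A : Finset C) (he : e ∉ A) :
    sp (Function.update p e x) (Function.update r e y) A = sp p r A := by
  unfold sp
  congr 1
  refine Set.image_congr ?_
  intro f hf
  have hfe : f ≠ e := by rintro rfl; exact he (by exact_mod_cast hf)
  unfold bd
  rw [Function.update_of_ne hfe, Function.update_of_ne hfe]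

end Pool.Agent.H31.Near
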