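import Mathlib
import Pool.Agent.H31.Near.Pairs

set_option autoImplicit false

/-! Pairs of colours for the chords of a laminar family. -/

namespace Pool.Agent.H31.Near

open Module Pool.Agent.H46.Faith

set_option linter.unusedSectionVars false

variable {V C : Type} [Fintype V] [DecidableEq V] [Fintype C] [DecidableEq C]

/-- The copies of `P` get pairs of `n` colours such that every cut of the laminar family
with `q` copies has rank at least `min q (n - 1)`. -/
theorem laminar_pairs {ι : Type} (s t : C → V) (T : Finset ι) (S : ι → Finset V)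
    (n : ℕ) (hn : 2 ≤ n)
    (hlam : ∀ i ∈ T, ∀ j ∈ T, S i ⊆ S j ∨ S j ⊆ S i ∨ Disjoint (S i) (S j)) :
    ∀ (N : ℕ) (P : Finset C), P.card ≤ N → ∃ p r : C → Fin n, ∀ i ∈ T,
      min (P ∩ dl s t (S i)).card (n - 1) ≤ finrank (ZMod 2) (sp p r (P ∩ dl s t (S i))) := by
  classical
  set ap : C → ℕ := fun e =>
    (insert (Fintype.card V + 1) ((T.filter (fun i => s e ∈ S i ∧ t e ∈ S i)).image
      (fun i => (S i).card))).min' (Finset.insert_nonempty _ _) with hap
  have hap1 : ∀ e, ∀ i ∈ T, s e ∈ S i → t e ∈ S i → ap e ≤ (S i).card := by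
    intro e i hi h1 h2
    refine Finset.min'_le _ _ ?_
    refine Finset.mem_insert_of_mem (Finset.mem_image.2 ⟨i, ?_, rfl⟩)
    rw [Finset.mem_filter]
    exact ⟨hi, h1, h2⟩
  have hap2 : ∀ e, ap e ≤ Fintype.card V → ∃ i ∈ T, s e ∈ S i ∧ t e ∈ S i ∧ (S i).card = ap e := by
    intro e he
    have h1 := Finset.min'_mem (insert (Fintype.card V + 1)
      ((T.filter (fun i => s e ∈ S i ∧ t e ∈ S i)).image (fun i => (S i).card)))
      (Finset.insert_nonempty _ _)
    rcases Finset.mem_insert.1 h1 with h2 | h2
    · exfalso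
      have : ap e = Fintype.card V + 1 := h2
      omega
    · rw [Finset.mem_image] at h2
      obtain ⟨i, hi, h3⟩ := h2
      rw [Finset.mem_filter] at hi
      exact ⟨i, hi.1, hi.2.1, hi.2.2, h3⟩
  intro N
  induction N with
  | zero =>
    intro P hP
    have h1 : P = ∅ := Finset.card_eq_zero.1 (Nat.le_zero.1 hP)
    refine ⟨fun _ => ⟨0, by omega⟩, fun _ => ⟨0, by omega⟩, fun i _ => ?_⟩
    rw [h1, Finset.empty_inter, Finset.card_empty, Nat.zero_min]
    exact Nat.zero_le _
  | succ N ih =>
    intro P hP
    rcases P.eq_empty_or_nonempty with h1 | h1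
    · refine ⟨fun _ => ⟨0, by omega⟩, fun _ => ⟨0, by omega⟩, fun i _ => ?_⟩
      rw [h1, Finset.empty_inter, Finset.card_empty, Nat.zero_min]
      exact Nat.zero_le _
    obtain ⟨e, he, hmin⟩ := Finset.exists_min_image P ap h1
    obtain ⟨p, r, hc⟩ := ih (P.erase e) (by
      have := Finset.card_erase_lt_of_mem he
      omega)
    have huniq : ∀ x, (x = s e ∨ x = t e) → ∀ i ∈ T, ∀ j ∈ T, x ∈ S i → x ∈ S j →
        e ∈ dl s t (S i) → e ∈ dl s t (S j) → S i ⊆ S j → ∀ a, a ∈ P → a ∈ dl s t (S i) →
        a ∈ dl s t (S j) := by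
      intro x hx i hi j hj hxi hxj hei hej hij a ha hai
      by_contra haj
      rw [mem_dl, not_not] at haj
      have hboth : s a ∈ S j ∧ t a ∈ S j := by
        rw [mem_dl] at hai
        by_cases h2 : s a ∈ S i
        · exact ⟨hij h2, haj.1 (hij h2)⟩
        · by_cases h3 : t a ∈ S i
          · exact ⟨haj.2 (hij h3), hij h3⟩
          · exact absurd (iff_of_false h2 h3) hai
      have h2 := hap1 a j hj hboth.1 hboth.2
      have h3 := (hmin a ha).trans h2
      obtain ⟨k, hk, hks, hkt, hkc⟩ := hap2 e (h3.trans (Finset.card_le_univ _))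
      have hxk : x ∈ S k := by
        rcases hx with h | h
        · rw [h]; exact hks
        · rw [h]; exact hkt
      have h4 : (S k).card ≤ (S j).card := by rw [hkc]; exact h3
      rw [mem_dl] at hej
      rcases hlam k hk j hj with h5 | h5 | h5
      · exact hej (iff_of_true (h5 hks) (h5 hkt))
      · have h6 := Finset.eq_of_subset_of_card_le h5 h4
        exact hej (iff_of_true (by rw [h6]; exact hks) (by rw [h6]; exact hkt))
      · exact Finset.disjoint_left.1 h5 hxk hxj
    have hside : ∀ x, (x = s e ∨ x = t e) → ∃ U : Submodule (ZMod 2) (Fin n → ZMod 2),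
        (∃ a b : Fin n, pv a b ∉ U) ∧ ∀ i ∈ T, x ∈ S i → e ∈ dl s t (S i) →
        finrank (ZMod 2) (sp p r (P.erase e ∩ dl s t (S i))) < n - 1 →
        sp p r (P.erase e ∩ dl s t (S i)) ≤ U := by
      intro x hx
      by_cases hex : (T.filter (fun i => x ∈ S i ∧ e ∈ dl s t (S i) ∧
          finrank (ZMod 2) (sp p r (P.erase e ∩ dl s t (S i))) < n - 1)).Nonempty
      · obtain ⟨i, hi, hmax⟩ := Finset.exists_max_image _ (fun i => (S i).card) hex
        rw [Finset.mem_filter] at hi
        obtain ⟨hi, hxi, hei, hri⟩ := hi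
        refine ⟨sp p r (P.erase e ∩ dl s t (S i)), exists_pv_notMem _ hri, ?_⟩
        intro j hj hxj hej hrj
        refine sp_mono ?_
        have h7 : S j ⊆ S i := by
          rcases hlam i hi j hj with h5 | h5 | h5
          · have h6 := hmax j (by rw [Finset.mem_filter]; exact ⟨hj, hxj, hej, hrj⟩)
            exact (Finset.eq_of_subset_of_card_le h5 h6).symm.subset
          · exact h5
          · exact absurd hxj (Finset.disjoint_left.1 h5 hxi)
        intro a ha
        rw [Finset.mem_inter] at ha ⊢
        exact ⟨ha.1, huniq x hx j hj i hi hxj hxi hej hei h7 a (Finset.mem_of_mem_erase ha.1) ha.2⟩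
      · refine ⟨⊥, exists_pv_notMem _ (by rw [finrank_bot]; omega), ?_⟩
        intro i hi hxi hei hri
        exact absurd ⟨i, by rw [Finset.mem_filter]; exact ⟨hi, hxi, hei, hri⟩⟩ hex
    obtain ⟨U1, hU1, hr1⟩ := hside (s e) (Or.inl rfl)
    obtain ⟨U2, hU2, hr2⟩ := hside (t e) (Or.inr rfl)
    obtain ⟨a, b, hab1, hab2⟩ := pair_avoid U1 U2 hU1 hU2
    refine ⟨Function.update p e a, Function.update r e b, ?_⟩
    intro i hi
    have hold := hc i hi
    by_cases hei : e ∈ dl s t (S i)
    · have heP : e ∈ P ∩ dl s t (S i) := Finset.mem_inter.2 ⟨he, hei⟩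
      have h3 : P.erase e ∩ dl s t (S i) = (P ∩ dl s t (S i)).erase e := by
        ext a
        rw [Finset.mem_inter, Finset.mem_erase, Finset.mem_erase, Finset.mem_inter]
        tauto
      have h4 : (P.erase e ∩ dl s t (S i)).card + 1 = (P ∩ dl s t (S i)).card := by
        rw [h3]
        exact Finset.card_erase_add_one heP
      have h5 : sp p r (P.erase e ∩ dl s t (S i)) ≤
          sp (Function.update p e a) (Function.update r e b) (P ∩ dl s t (S i)) := by
        rw [← sp_update p r e a b (P.erase e ∩ dl s t (S i)) (by rw [h3]; simp)]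
        exact sp_mono (Finset.inter_subset_inter_right (Finset.erase_subset _ _))
      by_cases h6 : finrank (ZMod 2) (sp p r (P.erase e ∩ dl s t (S i))) < n - 1
      · have h7 : pv a b ∉ sp p r (P.erase e ∩ dl s t (S i)) := by
          by_cases h8 : s e ∈ S i
          · intro h9
            exact hab1 (hr1 i hi h8 hei h6 h9)
          · have h9 : t e ∈ S i := by
              by_contra h10
              exact (mem_dl.1 hei) (iff_of_false h8 h10)
            intro h10
            exact hab2 (hr2 i hi h9 hei h6 h10)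
        have h8 : pv a b ∈ sp (Function.update p e a) (Function.update r e b)
            (P ∩ dl s t (S i)) := by
          refine Submodule.subset_span ⟨e, by exact_mod_cast heP, ?_⟩
          unfold bd
          rw [Function.update_self, Function.update_self]
          rfl
        have h9 : sp p r (P.erase e ∩ dl s t (S i)) <
            sp (Function.update p e a) (Function.update r e b) (P ∩ dl s t (S i)) := by
          refine lt_of_le_of_ne h5 ?_
          intro h10
          rw [h10] at h7
          exact h7 h8
        have h10 := Submodule.finrank_lt_finrank_of_lt h9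
        omega
      · have h7 := Submodule.finrank_mono h5
        omega
    · have h3 : P.erase e ∩ dl s t (S i) = P ∩ dl s t (S i) := by
        ext a
        rw [Finset.mem_inter, Finset.mem_inter, Finset.mem_erase]
        constructor
        · rintro ⟨⟨_, h⟩, h'⟩; exact ⟨h, h'⟩
        · rintro ⟨h, h'⟩
          exact ⟨⟨by rintro rfl; exact hei h', h⟩, h'⟩
      rw [h3] at hold
      rw [sp_update p r e a b _ (by
        rw [Finset.mem_inter]
        exact fun h => hei h.2)]
      exact hold

end Pool.Agent.H31.Near
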