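import Mathlib
import Pool.Agent.H31.Near.LamP
import Pool.Agent.H46.Faith.Classes

set_option autoImplicit false

/-! Sets of colours for the chords of a spanning forest. -/

namespace Pool.Agent.H31.Near

open Module Pool.Agent.H46.Faith

set_option linter.unusedSectionVars false

variable {V E : Type} [Fintype V] [DecidableEq V] [Fintype E] [DecidableEq E]

/-- The chords of a spanning forest get sets of colours, at most `2 c e` of them for the chord `e`,
such that every cut which meets the forest in one edge sees every colour. -/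
theorem chord_pairs (s t : E → V) (F T : Finset E) (hTF : T ⊆ F) (hsp : sp s t T = sp s t F)
    (hT : NoEven s t T) (n : ℕ) (hn : 2 ≤ n) (c : E → ℕ)
    (h3 : ∀ (X : Finset V) (f : E), T ∩ dl s t X = {f} →
      n - 1 ≤ ∑ e ∈ (F ∩ dl s t X).erase f, c e) :
    ∃ A : E → Finset (Fin n), (∀ e, (A e).card ≤ 2 * c e) ∧
      ∀ (X : Finset V) (f : E), T ∩ dl s t X = {f} → ∀ k : Fin n,
        ∃ e ∈ (F \ T) ∩ dl s t X, k ∈ A e := by
  classical
  set rep : V → V := fun v => (Quotient.mk (connSetoid s t T) v).out with hrep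
  have hrep1 : ∀ v, Conn s t T v (rep v) := by
    intro v
    have : (Quotient.mk (connSetoid s t T) (rep v)) = Quotient.mk (connSetoid s t T) v :=
      Quotient.out_eq _
    exact (Quotient.exact this).symm
  have hrep2 : ∀ u v, Conn s t T u v → rep u = rep v := by
    intro u v h
    have : (Quotient.mk (connSetoid s t T) u) = Quotient.mk (connSetoid s t T) v :=
      Quotient.sound h
    simp only [hrep]
    rw [this]
  set S : E → Finset V := fun f => Finset.univ.filter (fun v => ¬ Conn s t (T.erase f) v (rep v))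
    with hS
  have hmemS : ∀ f v, v ∈ S f ↔ ¬ Conn s t (T.erase f) v (rep v) := by
    intro f v
    simp [hS]
  have hsubT : ∀ f, T.erase f ⊆ T := fun f => Finset.erase_subset _ _
  -- closure
  have hclos : ∀ f u v, Conn s t (T.erase f) u v → (u ∈ S f ↔ v ∈ S f) := by
    intro f u v h
    rw [hmemS, hmemS, hrep2 u v (h.mono (hsubT f))]
    constructor
    · intro h1 h2; exact h1 (h.trans h2)
    · intro h1 h2; exact h1 (h.symm.trans h2)
  have hedge : ∀ f, ∀ e ∈ T, e ≠ f → (s e ∈ S f ↔ t e ∈ S f) := by
    intro f e he hne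
    exact hclos f _ _ (Conn.edge (Finset.mem_erase.2 ⟨hne, he⟩))
  -- f itself is in the cut
  have hself : ∀ f ∈ T, f ∈ dl s t (S f) := by
    intro f hf
    rw [mem_dl, hmemS, hmemS]
    have hr : rep (s f) = rep (t f) := hrep2 _ _ (Conn.edge hf)
    rw [← hr]
    intro hiff
    by_cases h1 : Conn s t (T.erase f) (s f) (rep (s f))
    · have h2 : Conn s t (T.erase f) (t f) (rep (s f)) := by
        by_contra h2
        exact (hiff.2 h2) h1
      obtain ⟨J, hJ, hJbd⟩ := (h1.trans h2.symm).join
      have hfJ : f ∉ J := fun h => (Finset.mem_erase.1 (hJ h)).1 rfl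
      have h4 := hT (insert f J) (by
        intro e he
        rcases Finset.mem_insert.1 he with h | h
        · rw [h]; exact hf
        · exact hsubT f (hJ h)) (by
        rw [bdS_insert s t J f hfJ, hJbd, bd]
        exact dbl _)
      exact absurd (Finset.mem_insert_self f J) (by rw [h4]; simp)
    · have h2 : ¬ Conn s t (T.erase f) (t f) (rep (s f)) := hiff.1 h1
      obtain ⟨e, he, heX⟩ := (hrep1 (s f)).symm.cut (comp s t (T.erase f) (rep (s f)))
        (self_mem_comp _ _ _ _) (fun h => h1 (mem_comp'.1 h).symm)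
      rw [mem_dl] at heX
      by_cases hef : e = f
      · subst hef
        exact heX (iff_of_false (fun h => h1 (mem_comp'.1 h).symm)
          (fun h => h2 (mem_comp'.1 h).symm))
      · exact heX (comp_edge (Finset.mem_erase.2 ⟨hef, he⟩))
  have hcutT : ∀ f ∈ T, T ∩ dl s t (S f) = {f} := by
    intro f hf
    ext e
    rw [Finset.mem_inter, Finset.mem_singleton]
    constructor
    · rintro ⟨h1, h2⟩
      by_contra hne
      exact (mem_dl.1 h2) (hedge f e h1 hne)
    · rintro rfl
      exact ⟨hf, hself _ hf⟩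
  -- the far end
  have hfar : ∀ f ∈ T, ∃ z, z ∈ S f ∧ ∀ v ∈ S f, Conn s t (T.erase f) v z := by
    intro f hf
    obtain ⟨z, z', hz, hz', hor⟩ : ∃ z z', z ∈ S f ∧ z' ∉ S f ∧
        ((s f = z ∧ t f = z') ∨ (s f = z' ∧ t f = z)) := by
      have h1 := mem_dl.1 (hself f hf)
      by_cases h2 : s f ∈ S f
      · exact ⟨s f, t f, h2, fun h => h1 (iff_of_true h2 h), Or.inl ⟨rfl, rfl⟩⟩
      · by_cases h4 : t f ∈ S f
        · exact ⟨t f, s f, h4, h2, Or.inr ⟨rfl, rfl⟩⟩
        · exact absurd (iff_of_false h2 h4) h1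
    refine ⟨z, hz, ?_⟩
    intro v hv
    by_contra hcon
    -- the component of v in T - f is left by f
    obtain ⟨e, he, heX⟩ := (hrep1 v).cut (comp s t (T.erase f) v) (self_mem_comp _ _ _ _)
      (fun h => (hmemS f v).1 hv (mem_comp'.1 h))
    have hef : e = f := by
      by_contra hne
      exact (mem_dl.1 heX) (comp_edge (Finset.mem_erase.2 ⟨hne, he⟩))
    subst hef
    have hzX : z ∉ comp s t (T.erase e) v := fun h => hcon (mem_comp'.1 h)
    have hz'X : z' ∉ comp s t (T.erase e) v := by
      intro h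
      exact hz' ((hclos e v z' (mem_comp'.1 h)).1 hv)
    rw [mem_dl] at heX
    apply heX
    rcases hor with ⟨h1, h2⟩ | ⟨h1, h2⟩
    · rw [h1, h2]; exact iff_of_false hzX hz'X
    · rw [h1, h2]; exact iff_of_false hz'X hzX
  -- paths on one side avoid edges of the other side
  have havoid : ∀ f g, ∀ (X : Finset V), (∀ e ∈ T.erase f, (s e ∈ X ↔ t e ∈ X)) →
      (s g ∉ X) → ∀ u v, u ∈ X → v ∈ X → Conn s t (T.erase f) u v → Conn s t (T.erase g) u v := by
    intro f g X hX hg u v hu hv h
    obtain ⟨J, hJ, hJbd⟩ := h.join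
    have h6 : bdS s t (J.filter (fun e => s e ∈ X)) = pt u + pt v := by
      refine bdS_filter_eq s t J X (fun e he => hX e (hJ he)) _ hJbd ?_
      intro z hz
      rw [Pi.add_apply, pt_ne, pt_ne, add_zero]
      · rintro rfl; exact hz hv
      · rintro rfl; exact hz hu
    refine (Conn.of_bdS h6).mono ?_
    intro e he
    rw [Finset.mem_filter] at he
    rw [Finset.mem_erase]
    refine ⟨?_, hsubT f (hJ he.1)⟩
    rintro rfl
    exact hg he.2
  have hlam : ∀ f ∈ T, ∀ g ∈ T, S f ⊆ S g ∨ S g ⊆ S f ∨ Disjoint (S f) (S g) := by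
    intro f hf g hg
    by_cases hfg : f = g
    · left; rw [hfg]
    have hgf : s g ∈ S f ↔ t g ∈ S f := hedge f g hg (Ne.symm hfg)
    by_cases hsg : s g ∈ S f
    · -- S g ⊆ S f
      right; left
      intro v hv
      by_contra hvf
      rw [hmemS, not_not] at hvf
      rw [hmemS] at hv
      apply hv
      refine havoid f g (S f)ᶜ ?_ ?_ v (rep v) ?_ ?_ hvf
      · intro e he
        rw [Finset.mem_compl, Finset.mem_compl]
        rw [Finset.mem_erase] at he
        exact not_congr (hedge f e he.2 he.1)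
      · rw [Finset.mem_compl, not_not]; exact hsg
      · rw [Finset.mem_compl, hmemS, not_not]; exact hvf
      · rw [Finset.mem_compl, hmemS, not_not]
        have : rep (rep v) = rep v := (hrep2 _ _ (hrep1 v)).symm
        rw [this]
        exact Conn.refl _ _ _ _
    · obtain ⟨z, hz, hzc⟩ := hfar f hf
      have hall : ∀ v ∈ S f, (v ∈ S g ↔ z ∈ S g) := by
        intro v hv
        refine hclos g v z ?_
        refine havoid f g (S f) ?_ hsg v z hv hz (hzc v hv)
        intro e he
        rw [Finset.mem_erase] at he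
        exact hedge f e he.2 he.1
      by_cases hzg : z ∈ S g
      · left
        intro v hv
        exact (hall v hv).2 hzg
      · right; right
        rw [Finset.disjoint_left]
        intro v hv hv'
        exact hzg ((hall v hv).1 hv')
  obtain ⟨p, r, hpr⟩ := laminar_pairs (C := Cp c) (fun x => s x.1) (fun x => t x.1) T S n hn hlam _
    (Finset.univ.filter (fun x : Cp c => x.1 ∈ F \ T)) le_rfl
  refine ⟨fun e => (Finset.univ.image (fun a : Fin (c e) => p ⟨e, a⟩)) ∪
    (Finset.univ.image (fun a : Fin (c e) => r ⟨e, a⟩)), ?_, ?_⟩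
  · intro e
    refine (Finset.card_union_le _ _).trans ?_
    have h1 := Finset.card_image_le (s := (Finset.univ : Finset (Fin (c e))))
      (f := fun a => p ⟨e, a⟩)
    have h2 := Finset.card_image_le (s := (Finset.univ : Finset (Fin (c e))))
      (f := fun a => r ⟨e, a⟩)
    rw [Finset.card_univ, Fintype.card_fin] at h1 h2
    omega
  intro X f hXf k
  have hfT : f ∈ T ∩ dl s t X := by rw [hXf]; simp
  rw [Finset.mem_inter] at hfT
  -- the cut X agrees with the fundamental cut on F
  have hagree : ∀ e ∈ F, (e ∈ dl s t X ↔ e ∈ dl s t (S f)) := by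
    intro e he
    rw [mem_dl, mem_dl]
    refine cut_eq_of_span s t T X (S f) ?_ e ?_
    · intro g hg
      rw [← mem_dl, ← mem_dl]
      have h1 : g ∈ dl s t X ↔ g = f := by
        constructor
        · intro h
          have : g ∈ T ∩ dl s t X := Finset.mem_inter.2 ⟨hg, h⟩
          rw [hXf] at this
          simpa using this
        · rintro rfl; exact hfT.2
      have h2 : g ∈ dl s t (S f) ↔ g = f := by
        constructor
        · intro h
          have : g ∈ T ∩ dl s t (S f) := Finset.mem_inter.2 ⟨hg, h⟩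
          rw [hcutT f hfT.1] at this
          simpa using this
        · rintro rfl; exact hself _ hfT.1
      rw [h1, h2]
    · rw [hsp]
      exact Submodule.subset_span ⟨e, by exact_mod_cast he, rfl⟩
  have heq : (F \ T) ∩ dl s t X = (F \ T) ∩ dl s t (S f) := by
    ext e
    rw [Finset.mem_inter, Finset.mem_inter]
    constructor
    · rintro ⟨h1, h2⟩
      exact ⟨h1, (hagree e (Finset.mem_sdiff.1 h1).1).1 h2⟩
    · rintro ⟨h1, h2⟩
      exact ⟨h1, (hagree e (Finset.mem_sdiff.1 h1).1).2 h2⟩
  rw [heq]
  have hcnt : n - 1 ≤ ((Finset.univ.filter (fun x : Cp c => x.1 ∈ F \ T)) ∩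
      dl (fun x : Cp c => s x.1) (fun x => t x.1) (S f)).card := by
    refine (h3 (S f) f (hcutT f hfT.1)).trans ?_
    have h5 : (F ∩ dl s t (S f)).erase f ⊆ (F \ T) ∩ dl s t (S f) := by
      intro e he
      rw [Finset.mem_erase, Finset.mem_inter] at he
      rw [Finset.mem_inter, Finset.mem_sdiff]
      refine ⟨⟨he.2.1, ?_⟩, he.2.2⟩
      intro h
      have : e ∈ T ∩ dl s t (S f) := Finset.mem_inter.2 ⟨h, he.2.2⟩
      rw [hcutT f hfT.1] at this
      exact he.1 (by simpa using this)
    refine (Finset.sum_le_sum_of_subset h5).trans ?_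
    have h6 : (Finset.univ.filter (fun x : Cp c => x.1 ∈ F \ T)) ∩
        dl (fun x : Cp c => s x.1) (fun x => t x.1) (S f) =
        ((F \ T) ∩ dl s t (S f)).sigma (fun e => (Finset.univ : Finset (Fin (c e)))) := by
      ext ⟨e, a⟩
      simp only [Finset.mem_inter, Finset.mem_filter, Finset.mem_univ, true_and,
        Finset.mem_sigma, and_true, mem_dl]
    rw [h6, Finset.card_sigma]
    simp
  have hrk := hpr f hfT.1
  rw [min_eq_right hcnt] at hrk
  obtain ⟨⟨e, a⟩, hea, hk⟩ := colour_seen hn p r _ hrk k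
  simp only [Finset.mem_inter, Finset.mem_filter, Finset.mem_univ, true_and, mem_dl] at hea
  refine ⟨e, Finset.mem_inter.2 ⟨hea.1, mem_dl.2 hea.2⟩, ?_⟩
  rw [Finset.mem_union, Finset.mem_image, Finset.mem_image]
  rcases hk with hk | hk
  · exact Or.inl ⟨a, Finset.mem_univ _, hk⟩
  · exact Or.inr ⟨a, Finset.mem_univ _, hk⟩

end Pool.Agent.H31.Near
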