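import Mathlib
import Pool.Agent.H46.Faith.Covers

set_option autoImplicit false

/-! Translating the 4-cover and the 6-cover of a bridgeless graph by one even subgraph: the edges of
the graph keep their weight, and a prescribed set of further edges is covered twice as often. -/

namespace Pool.Agent.H31.Near

open Module Pool.Agent.H46.Faith

set_option linter.unusedSectionVars false

variable {V E : Type} [Fintype V] [DecidableEq V] [Fintype E] [DecidableEq E]

/-- an even subgraph which is `D` outside of `F` -/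
lemma exists_even_ext (s t : E → V) (F D : Finset E) (hFD : Disjoint F D)
    (hD : bdS s t D ∈ sp s t F) :
    ∃ S : Finset E, bdS s t S = 0 ∧ (∀ e ∈ D, e ∈ S) ∧ ∀ e ∉ F, e ∉ D → e ∉ S := by
  classical
  obtain ⟨J, hJ, hJ'⟩ := exists_subset_sum s t F _ hD
  have hdis : Disjoint D J := by
    rw [Finset.disjoint_left]
    intro e he he'
    exact Finset.disjoint_left.1 hFD (hJ he') he
  refine ⟨D ∪ J, ?_, ?_, ?_⟩
  · rw [bdS_union s t D J hdis]
    have h1 : bdS s t J = bdS s t D := hJ'
    rw [h1, dbl]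
  · intro e he
    exact Finset.mem_union_left _ he
  · intro e he he' h
    rcases Finset.mem_union.1 h with h1 | h1
    · exact he' h1
    · exact he (hJ h1)

lemma symm2 (s t : E → V) (A S : Finset E) (hA : bdS s t A = 0) (hS : bdS s t S = 0) :
    indN (symmDiff A S) ∈ Cov s t := symm_mem_Cov s t A S hA hS

/-- Translated 4-cover. -/
theorem four_translate (s t : E → V) (F D : Finset E) (hFD : Disjoint F D)
    (hD : bdS s t D ∈ sp s t F) (hbr : ∀ X : Finset V, (F ∩ dl s t X).card ≠ 1) :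
    4 • indN F + 8 • indN D ∈ Cov s t := by
  classical
  obtain ⟨Z, hZ, hZ0, ψ, hψF, hψ0, hψ⟩ := six_flow _ s t F le_rfl hbr
  obtain ⟨D1, D2, h1, h2, h3, h4, h5⟩ := two_even s t ψ hψ0
  obtain ⟨S, hS0, hSD, hSF⟩ := exists_even_ext s t F D hFD hD
  have h6 : bdS s t (symmDiff D1 D2) = 0 := by rw [bdS_symmDiff, h1, h2, add_zero]
  have hsum : 4 • indN F + 8 • indN D = indN (symmDiff Z S) + indN (symmDiff D1 S) +
      indN (symmDiff D2 S) + indN (symmDiff (symmDiff D1 D2) S) +
      indN (symmDiff (symmDiff D1 Z) S) + indN (symmDiff (symmDiff D2 Z) S) +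
      indN (symmDiff (symmDiff (symmDiff D1 D2) Z) S) + indN S := by
    funext e
    simp only [Pi.smul_apply, Pi.add_apply, indN, Finset.mem_symmDiff, smul_eq_mul]
    by_cases heF : e ∈ F
    · have h7 : e ∈ Z ∨ e ∈ D1 ∨ e ∈ D2 := by
        by_cases heZ : e ∈ Z
        · exact Or.inl heZ
        · exact Or.inr (h5 e (hψ e heF heZ))
      have h8 : e ∉ D := Finset.disjoint_left.1 hFD heF
      by_cases a1 : e ∈ Z <;> by_cases a2 : e ∈ D1 <;> by_cases a3 : e ∈ D2 <;>
        by_cases a4 : e ∈ S <;> simp [a1, a2, a3, a4, heF, h8]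
      all_goals exact absurd h7 (by simp [a1, a2, a3])
    · have a1 : e ∉ Z := fun h => heF (hZ h)
      have a2 : e ∉ D1 := fun h => h3 e h (hψF e heF)
      have a3 : e ∉ D2 := fun h => h4 e h (hψF e heF)
      by_cases heD : e ∈ D
      · have a4 := hSD e heD
        simp [a1, a2, a3, a4, heF, heD]
      · have a4 := hSF e heF heD
        simp [a1, a2, a3, a4, heF, heD]
  rw [hsum]
  refine add_mem (add_mem (add_mem (add_mem (add_mem (add_mem (add_mem ?_ ?_) ?_) ?_) ?_) ?_) ?_) ?_
  · exact symm2 s t _ _ hZ0 hS0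
  · exact symm2 s t _ _ h1 hS0
  · exact symm2 s t _ _ h2 hS0
  · exact symm2 s t _ _ h6 hS0
  · exact symm2 s t _ _ (by rw [bdS_symmDiff, h1, hZ0, add_zero]) hS0
  · exact symm2 s t _ _ (by rw [bdS_symmDiff, h2, hZ0, add_zero]) hS0
  · exact symm2 s t _ _ (by rw [bdS_symmDiff, h6, hZ0, add_zero]) hS0
  · exact indN_mem_Cov s t S hS0

/-- Translated 6-cover. -/
theorem six_translate (s t : E → V) (F D : Finset E) (hFD : Disjoint F D)
    (hD : bdS s t D ∈ sp s t F) (hbr : ∀ X : Finset V, (F ∩ dl s t X).card ≠ 1) :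
    6 • indN F + 12 • indN D ∈ Cov s t := by
  classical
  obtain ⟨Z, hZ, hZ0, ψ, hψF, hψ0, hψ⟩ := six_flow _ s t F le_rfl hbr
  obtain ⟨η, hη0, hη⟩ := even_flow s t Z hZ0
  obtain ⟨S, hS0, hSD, hSF⟩ := exists_even_ext s t F D hFD hD
  have hall : ∀ c : ZMod 3, ∃ D1 D2 : Finset E, bdS s t D1 = 0 ∧ bdS s t D2 = 0 ∧
      (∀ e ∈ D1, ψ e + c * η e ≠ 0) ∧ (∀ e ∈ D2, ψ e + c * η e ≠ 0) ∧
      ∀ e, ψ e + c * η e ≠ 0 → e ∈ D1 ∨ e ∈ D2 := by
    intro c
    exact two_even s t (ψ + c • η) (by rw [dv_add, dv_smul, hψ0, hη0, smul_zero, add_zero])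
  choose D1 D2 h1 h2 h3 h4 h5 using hall
  set T : ZMod 3 → (E → ℕ) := fun c => indN (symmDiff (symmDiff (D1 c) Z) S) +
    indN (symmDiff (symmDiff (D2 c) Z) S) +
    indN (symmDiff (symmDiff (symmDiff (D1 c) (D2 c)) Z) S) with hT
  have hTmem : ∀ c, T c ∈ Cov s t := by
    intro c
    have h6 : bdS s t (symmDiff (D1 c) (D2 c)) = 0 := by rw [bdS_symmDiff, h1, h2, add_zero]
    exact add_mem (add_mem (symm2 s t _ _ (by rw [bdS_symmDiff, h1, hZ0, add_zero]) hS0)
      (symm2 s t _ _ (by rw [bdS_symmDiff, h2, hZ0, add_zero]) hS0))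
      (symm2 s t _ _ (by rw [bdS_symmDiff, h6, hZ0, add_zero]) hS0)
  have hTval : ∀ c e, T c e = if e ∈ S then
      (3 - if e ∈ Z then (if ψ e + c * η e = 0 then 3 else 1)
      else (if ψ e + c * η e = 0 then 0 else 2)) else
      if e ∈ Z then (if ψ e + c * η e = 0 then 3 else 1)
      else (if ψ e + c * η e = 0 then 0 else 2) := by
    intro c e
    simp only [hT, Pi.add_apply, indN, Finset.mem_symmDiff]
    by_cases h0 : ψ e + c * η e = 0
    · have a2 : e ∉ D1 c := fun h => h3 c e h h0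
      have a3 : e ∉ D2 c := fun h => h4 c e h h0
      by_cases a1 : e ∈ Z <;> by_cases a4 : e ∈ S <;> simp [a1, a2, a3, a4, h0]
    · have h7 := h5 c e h0
      by_cases a1 : e ∈ Z <;> by_cases a2 : e ∈ D1 c <;> by_cases a3 : e ∈ D2 c <;>
        by_cases a4 : e ∈ S <;> simp [a1, a2, a3, a4, h0]
      all_goals exact absurd h7 (by simp [a2, a3])
  have hsum : 6 • indN F + 12 • indN D =
      indN (symmDiff Z S) + T 0 + T 1 + T 2 + indN S + indN S := by
    funext e
    simp only [Pi.add_apply, hTval, Pi.smul_apply]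
    unfold indN
    simp only [smul_eq_mul, Finset.mem_symmDiff]
    by_cases heF : e ∈ F
    · have heD : e ∉ D := Finset.disjoint_left.1 hFD heF
      simp only [if_pos heF, if_neg heD]
      by_cases heZ : e ∈ Z
      · have hr : η e ≠ 0 := (hη e).2 heZ
        simp only [heZ, if_true, true_and, not_true, and_false, or_false, not_false_iff]
        have hdec : ∀ p r : ZMod 3, r ≠ 0 → 6 * 1 = 1 + (if p + 0 * r = 0 then 3 else 1) +
            (if p + 1 * r = 0 then 3 else 1) + (if p + 2 * r = 0 then 3 else 1) := by decide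
        have hdec2 : ∀ p r : ZMod 3, r ≠ 0 → 6 * 1 = 0 + (3 - if p + 0 * r = 0 then 3 else 1) +
            (3 - if p + 1 * r = 0 then 3 else 1) + (3 - if p + 2 * r = 0 then 3 else 1) + 1 + 1 := by
          decide
        by_cases heS : e ∈ S
        · have := hdec2 (ψ e) (η e) hr
          simpa [heS] using this
        · have := hdec (ψ e) (η e) hr
          simpa [heS] using this
      · have hr : η e = 0 := by
          by_contra h
          exact heZ ((hη e).1 h)
        have h0 := hψ e heF heZ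
        by_cases heS : e ∈ S <;> simp [heS, heZ, hr, h0]
    · have heZ : e ∉ Z := fun h => heF (hZ h)
      have hr : η e = 0 := by
        by_contra h
        exact heZ ((hη e).1 h)
      have h0 := hψF e heF
      by_cases heD : e ∈ D
      · have heS := hSD e heD
        simp [heS, heZ, hr, h0, heF, heD]
      · have heS := hSF e heF heD
        simp [heS, heZ, hr, h0, heF, heD]
  rw [hsum]
  refine add_mem (add_mem (add_mem (add_mem (add_mem ?_ (hTmem 0)) (hTmem 1)) (hTmem 2)) ?_) ?_
  · exact symm2 s t _ _ hZ0 hS0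
  · exact indN_mem_Cov s t S hS0
  · exact indN_mem_Cov s t S hS0

end Pool.Agent.H31.Near
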