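import Mathlib
import Pool.Agent.H31.Near.Translate

set_option autoImplicit false

/-! Numbers written with fours and sixes, and their distribution over the classes. -/

namespace Pool.Agent.H31.Near

open Module Pool.Agent.H46.Faith

set_option linter.unusedSectionVars false

/-- Numbers written with fours and sixes. -/
lemma num (A B z : ℕ) (hA : 2 ≤ A) (hB : 1 ≤ B) (hz : z = 0 ∨ (4 ≤ z ∧ z + 4 ≤ 4 * A + 6 * B))
    (hev : z % 2 = 0) : ∃ P Q, P ≤ A ∧ Q ≤ B ∧ 4 * P + 6 * Q = z := by
  rcases hz with rfl | ⟨h4, hz⟩
  · exact ⟨0, 0, Nat.zero_le _, Nat.zero_le _, rfl⟩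
  by_cases h : 3 * B ≤ z / 2
  · rcases Nat.mod_two_eq_zero_or_one (z / 2 - 3 * B) with h1 | h1
    · exact ⟨(z / 2 - 3 * B) / 2, B, by omega, le_rfl, by omega⟩
    · exact ⟨(z / 2 - 3 * (B - 1)) / 2, B - 1, by omega, by omega, by omega⟩
  · rcases Nat.mod_two_eq_zero_or_one (z / 2 - 3 * (z / 6)) with h1 | h1
    · exact ⟨(z / 2 - 3 * (z / 6)) / 2, z / 6, by omega, by omega, by omega⟩
    · exact ⟨(z / 2 - 3 * (z / 6 - 1)) / 2, z / 6 - 1, by omega, by omega, by omega⟩

/-- Distribute `P` over the members of `R`. -/
lemma distribute {ι : Type} [DecidableEq ι] (a : ℕ) :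
    ∀ (R : Finset ι) (P : ℕ), P ≤ R.card * a →
      ∃ p : ι → ℕ, (∀ i ∈ R, p i ≤ a) ∧ ∑ i ∈ R, p i = P := by
  intro R
  induction R using Finset.induction_on with
  | empty =>
    intro P hP
    rw [Finset.card_empty, zero_mul, Nat.le_zero] at hP
    exact ⟨fun _ => 0, by simp, by simp [hP]⟩
  | insert i R hi ih =>
    intro P hP
    rw [Finset.card_insert_of_notMem hi, add_mul, one_mul] at hP
    obtain ⟨p, hp, hps⟩ := ih (P - min a P) (by omega)
    refine ⟨Function.update p i (min a P), ?_, ?_⟩
    · intro j hj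
      by_cases hji : j = i
      · subst hji; rw [Function.update_self]; exact min_le_left _ _
      · rw [Function.update_of_ne hji]
        exact hp j ((Finset.mem_insert.1 hj).resolve_left hji)
    · rw [Finset.sum_insert hi, Function.update_self]
      have : ∑ x ∈ R, Function.update p i (min a P) x = ∑ x ∈ R, p x := by
        refine Finset.sum_congr rfl (fun x hx => ?_)
        rw [Function.update_of_ne]
        rintro rfl
        exact hi hx
      rw [this, hps]
      omega

/-- Splitting a number at most `2 a` into `a` numbers at most two. -/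
lemma sum_two (a : ℕ) : ∀ p, p ≤ 2 * a → ∑ l ∈ Finset.range a, min 2 (p - 2 * l) = p := by
  induction a with
  | zero => intro p hp; simp; omega
  | succ a ih =>
    intro p hp
    rw [Finset.sum_range_succ]
    by_cases h : p ≤ 2 * a
    · rw [ih p h]; omega
    · have h1 : ∑ l ∈ Finset.range a, min 2 (p - 2 * l) = 2 * a := by
        rw [Finset.sum_congr rfl (g := fun _ => 2)]
        · rw [Finset.sum_const, Finset.card_range, smul_eq_mul, mul_comm]
        · intro l hl
          rw [Finset.mem_range] at hl
          omega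
      rw [h1]; omega

end Pool.Agent.H31.Near
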