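import Mathlib
import Pool.Agent.H31.Near.Layer
import Pool.Agent.H46.Faith.Final3

set_option autoImplicit false

/-! Weights in a window, from a system of classes. -/

namespace Pool.Agent.H31.Near

open Module Pool.Agent.H46.Faith

set_option linter.unusedSectionVars false

variable {V E : Type} [Fintype V] [DecidableEq V] [Fintype E] [DecidableEq E]

lemma layer_facts' (s t : E → V) (g : E → ℕ)
    (hN : ∀ X : Finset V, (∃ e ∈ dl s t X, g e ≠ 0) →
      2 ≤ ((Finset.univ.filter (fun e => g e = 1)) ∩ dl s t X).card) :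
    (∀ X : Finset V, ((Finset.univ.filter (fun e => g e = 1)) ∩ dl s t X).card ≠ 1) ∧
      bdS s t (Finset.univ.filter (fun e => g e = 2)) ∈
        sp s t (Finset.univ.filter (fun e => g e = 1)) := by
  classical
  refine ⟨?_, ?_⟩
  · intro X h1
    have h2 : ∃ e ∈ dl s t X, g e ≠ 0 := by
      have h3 : ((Finset.univ.filter (fun e => g e = 1)) ∩ dl s t X).Nonempty := by
        rw [← Finset.card_pos]; omega
      obtain ⟨e, he⟩ := h3
      rw [Finset.mem_inter, Finset.mem_filter] at he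
      exact ⟨e, he.2, by rw [he.1.2]; exact one_ne_zero⟩
    have := hN X h2
    omega
  · refine mem_sp_of_cuts s t _ _ (fun X hX => ?_)
    rw [cf_bdS]
    have h1 : (Finset.univ.filter (fun e => g e = 2)) ∩ dl s t X = ∅ := by
      by_contra hne
      obtain ⟨e, he⟩ := Finset.nonempty_iff_ne_empty.2 hne
      rw [Finset.mem_inter, Finset.mem_filter] at he
      have h2 := hN X ⟨e, he.2, by rw [he.1.2]; exact two_ne_zero⟩
      rw [hX, Finset.card_empty] at h2
      omega
    rw [h1, Finset.card_empty, Nat.cast_zero]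

lemma layer4' (s t : E → V) (g : E → ℕ) (hg : ∀ e, g e ≤ 2)
    (hN : ∀ X : Finset V, (∃ e ∈ dl s t X, g e ≠ 0) →
      2 ≤ ((Finset.univ.filter (fun e => g e = 1)) ∩ dl s t X).card) :
    (fun e => 4 * g e) ∈ Cov s t := by
  classical
  obtain ⟨h1, h2⟩ := layer_facts' s t g hN
  have hd : Disjoint (Finset.univ.filter (fun e => g e = 1))
      (Finset.univ.filter (fun e => g e = 2)) := by
    rw [Finset.disjoint_left]
    intro e he he'
    rw [Finset.mem_filter] at he he'
    omega
  have h3 := four_translate s t _ _ hd h2 h1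
  have h4 : (fun e => 4 * g e) = 4 • indN (Finset.univ.filter (fun e => g e = 1)) +
      8 • indN (Finset.univ.filter (fun e => g e = 2)) := by
    funext e
    simp only [Pi.add_apply, Pi.smul_apply, indN, Finset.mem_filter, Finset.mem_univ, true_and,
      smul_eq_mul]
    have := hg e
    split_ifs <;> omega
  rw [h4]
  exact h3

lemma layer6' (s t : E → V) (g : E → ℕ) (hg : ∀ e, g e ≤ 2)
    (hN : ∀ X : Finset V, (∃ e ∈ dl s t X, g e ≠ 0) →
      2 ≤ ((Finset.univ.filter (fun e => g e = 1)) ∩ dl s t X).card) :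
    (fun e => 6 * g e) ∈ Cov s t := by
  classical
  obtain ⟨h1, h2⟩ := layer_facts' s t g hN
  have hd : Disjoint (Finset.univ.filter (fun e => g e = 1))
      (Finset.univ.filter (fun e => g e = 2)) := by
    rw [Finset.disjoint_left]
    intro e he he'
    rw [Finset.mem_filter] at he he'
    omega
  have h3 := six_translate s t _ _ hd h2 h1
  have h4 : (fun e => 6 * g e) = 6 • indN (Finset.univ.filter (fun e => g e = 1)) +
      12 • indN (Finset.univ.filter (fun e => g e = 2)) := by
    funext e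
    simp only [Pi.add_apply, Pi.smul_apply, indN, Finset.mem_filter, Finset.mem_univ, true_and,
      smul_eq_mul]
    have := hg e
    split_ifs <;> omega
  rw [h4]
  exact h3

/-- the condition on the weight `W` of an edge with `n` free classes and base weight `base` -/
def Wn (W base n β : ℕ) : Prop :=
  base ≤ W ∧ (W - base ≤ 1 ∨ (4 ≤ W - base ∧ W - base + 3 ≤ 2 * n * β) ∨
    (2 * n * β ≤ W - base ∧ W - base ≤ 2 * n * β + 1))

lemma wn_num (W base n a b : ℕ) (ha : 1 ≤ a) (hb : 1 ≤ b) (hbase : base % 2 = 0)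
    (h : Wn W base n (4 * a + 6 * b)) :
    ∃ P Q, P ≤ n * (2 * a) ∧ Q ≤ n * (2 * b) ∧ W = W % 2 + base + (4 * P + 6 * Q) := by
  obtain ⟨h1, h2⟩ := h
  rcases Nat.eq_zero_or_pos n with rfl | hn
  · refine ⟨0, 0, by simp, by simp, ?_⟩
    simp only [mul_zero, zero_mul] at h2
    omega
  · obtain ⟨X, hX⟩ : ∃ X, X = n * a := ⟨_, rfl⟩
    obtain ⟨Y, hY⟩ : ∃ Y, Y = n * b := ⟨_, rfl⟩
    have hX1 : 1 ≤ X := by rw [hX]; exact Nat.mul_pos hn ha
    have hY1 : 1 ≤ Y := by rw [hY]; exact Nat.mul_pos hn hb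
    have e1 : n * (2 * a) = 2 * X := by rw [hX]; ring
    have e2 : n * (2 * b) = 2 * Y := by rw [hY]; ring
    have e3 : 2 * n * (4 * a + 6 * b) = 8 * X + 12 * Y := by rw [hX, hY]; ring
    rw [e3] at h2
    rw [e1, e2]
    by_cases h3 : 8 * X + 12 * Y ≤ W - base
    · exact ⟨2 * X, 2 * Y, le_rfl, le_rfl, by omega⟩
    obtain ⟨P, Q, hP, hQ, hPQ⟩ := num (2 * X) (2 * Y) (W - base - W % 2) (by omega) (by omega)
      (by omega) (by omega)
    exact ⟨P, Q, hP, hQ, by omega⟩

/-- the sum of the shares of the classes -/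
lemma share_sum' {ι : Type} [DecidableEq ι] (R J I : Finset ι) (hR : R ⊆ J) (hJ : J ⊆ I)
    (a P : ℕ) (p : ι → ℕ) (hp : ∀ i ∈ R, p i ≤ 2 * a) (hs : ∑ i ∈ R, p i = P) :
    ∑ i ∈ I, ∑ l ∈ Finset.range a,
      (if i ∈ J then (if i ∈ R then min 2 (p i - 2 * l) else 1) else 0) =
      P + (J.card - R.card) * a := by
  classical
  rw [← Finset.sum_sdiff hJ, Finset.sum_eq_zero (s := I \ J), zero_add, ← Finset.sum_sdiff hR,
    add_comm]
  · congr 1
    · rw [← hs]
      refine Finset.sum_congr rfl (fun i hi => ?_)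
      simp only [if_pos hi, if_pos (hR hi)]
      exact sum_two a (p i) (hp i hi)
    · rw [Finset.sum_congr rfl (g := fun _ => a)]
      · rw [Finset.sum_const, smul_eq_mul, Finset.card_sdiff_of_subset hR]
      · intro i hi
        have hi' : i ∉ R := (Finset.mem_sdiff.1 hi).2
        simp only [if_neg hi', if_pos (Finset.mem_sdiff.1 hi).1]
        rw [Finset.sum_const, Finset.card_range, smul_eq_mul, mul_one]
  · intro i hi
    have hi' : i ∉ J := (Finset.mem_sdiff.1 hi).2
    simp only [if_neg hi']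
    simp

theorem layered {ι : Type} [DecidableEq ι] (s t : E → V) (I : Finset ι) (J R : E → Finset ι)
    (hJ : ∀ e, J e ⊆ I) (hR : ∀ e, R e ⊆ J e)
    (hcls : ∀ i ∈ I, ∀ X : Finset V, (∃ e ∈ dl s t X, i ∈ J e) →
      2 ≤ ((Finset.univ.filter (fun e => i ∈ J e ∧ i ∉ R e)) ∩ dl s t X).card)
    (a b : ℕ) (ha : 1 ≤ a) (hb : 1 ≤ b) (w : E → ℕ) (hw : wbd s t w = 0)
    (hwin : ∀ e, Wn (w e) (((J e).card - (R e).card) * (4 * a + 6 * b)) (R e).card
      (4 * a + 6 * b)) : w ∈ Cov s t := by
  classical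
  have hbase : ∀ e, ∃ P Q, P ≤ (R e).card * (2 * a) ∧ Q ≤ (R e).card * (2 * b) ∧
      w e = w e % 2 + ((J e).card - (R e).card) * (4 * a + 6 * b) + (4 * P + 6 * Q) := by
    intro e
    refine wn_num _ _ _ a b ha hb ?_ (hwin e)
    have : ((J e).card - (R e).card) * (4 * a + 6 * b) =
      2 * (((J e).card - (R e).card) * (2 * a + 3 * b)) := by ring
    omega
  choose P Q hP hQ hPQ using hbase
  have hdp : ∀ e, ∃ p : ι → ℕ, (∀ i ∈ R e, p i ≤ 2 * a) ∧ ∑ i ∈ R e, p i = P e :=
    fun e => distribute (2 * a) (R e) (P e) (hP e)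
  have hdq : ∀ e, ∃ q : ι → ℕ, (∀ i ∈ R e, q i ≤ 2 * b) ∧ ∑ i ∈ R e, q i = Q e :=
    fun e => distribute (2 * b) (R e) (Q e) (hQ e)
  choose p hp hps using hdp
  choose q hq hqs using hdq
  have hNgen : ∀ (r : E → ι → ℕ) (i : ι) (l : ℕ), i ∈ I →
      ∀ X : Finset V, (∃ e ∈ dl s t X,
          (if i ∈ J e then (if i ∈ R e then min 2 (r e i - 2 * l) else 1) else 0) ≠ 0) →
        2 ≤ ((Finset.univ.filter (fun e =>
          (if i ∈ J e then (if i ∈ R e then min 2 (r e i - 2 * l) else 1) else 0) = 1)) ∩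
          dl s t X).card := by
    rintro r i l hi X ⟨e, he, hne⟩
    have hiJ : i ∈ J e := by
      by_contra h
      rw [if_neg h] at hne
      exact hne rfl
    refine (hcls i hi X ⟨e, he, hiJ⟩).trans (Finset.card_le_card ?_)
    refine Finset.inter_subset_inter_right ?_
    intro e he
    rw [Finset.mem_filter] at he ⊢
    refine ⟨he.1, ?_⟩
    rw [if_pos he.2.1, if_neg he.2.2]
  have hle : ∀ (r : E → ι → ℕ) (i : ι) (l : ℕ) (e : E),
      (if i ∈ J e then (if i ∈ R e then min 2 (r e i - 2 * l) else 1) else 0) ≤ 2 := by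
    intro r i l e
    split_ifs
    · exact min_le_left _ _
    · omega
    · omega
  set D : Finset E := Finset.univ.filter (fun e => w e % 2 = 1) with hD
  have hD0 : bdS s t D = 0 := by rw [hD, ← wbd_odd, hw]
  have hmain : w = indN D +
      (∑ i ∈ I, ∑ l ∈ Finset.range a, (fun e => 4 *
        (if i ∈ J e then (if i ∈ R e then min 2 (p e i - 2 * l) else 1) else 0))) +
      ∑ i ∈ I, ∑ l ∈ Finset.range b, (fun e => 6 *
        (if i ∈ J e then (if i ∈ R e then min 2 (q e i - 2 * l) else 1) else 0)) := by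
    funext e
    simp only [Pi.add_apply, Finset.sum_apply, ← Finset.mul_sum]
    rw [share_sum' (R e) (J e) I (hR e) (hJ e) a (P e) (p e) (hp e) (hps e),
      share_sum' (R e) (J e) I (hR e) (hJ e) b (Q e) (q e) (hq e) (hqs e)]
    have h4 : indN D e = w e % 2 := by
      unfold indN
      simp only [hD, Finset.mem_filter, Finset.mem_univ, true_and]
      split_ifs <;> omega
    rw [h4]
    have h5 := hPQ e
    have h6 : ((J e).card - (R e).card) * (4 * a + 6 * b) =
        4 * (((J e).card - (R e).card) * a) + 6 * (((J e).card - (R e).card) * b) := by ring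
    omega
  rw [hmain]
  refine add_mem (add_mem (indN_mem_Cov s t D hD0) ?_) ?_
  · exact sum_mem (fun i hi => sum_mem (fun l _ =>
      layer4' s t _ (fun e => hle p i l e) (hNgen p i l hi)))
  · exact sum_mem (fun i hi => sum_mem (fun l _ =>
      layer6' s t _ (fun e => hle q i l e) (hNgen q i l hi)))

end Pool.Agent.H31.Near
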