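import Mathlib
import Pool.Agent.H31.Near.ChordP

set_option autoImplicit false

/-! A system of `n K` classes: `K` spanning forests and sets of `n` colours for their chords. -/

namespace Pool.Agent.H31.Near

open Module Pool.Agent.H46.Faith

set_option linter.unusedSectionVars false

variable {V E : Type} [Fintype V] [DecidableEq V] [Fintype E] [DecidableEq E]

/-- the index set of the classes -/
abbrev JJ (n K : ℕ) : Finset (ℕ × Fin n) := (Finset.Icc 1 K) ×ˢ (Finset.univ : Finset (Fin n))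

lemma card_JJ (n K : ℕ) : (JJ n K).card = n * K := by
  rw [Finset.card_product, Nat.card_Icc, Finset.card_univ, Fintype.card_fin, Nat.add_sub_cancel,
    mul_comm]

theorem class_system2 (s t : E → V) (L : Finset E) (n K : ℕ) (hn : 2 ≤ n) (hK : 1 ≤ K)
    (m c : E → ℕ)
    (hm : ∀ X : Finset V, (L ∩ dl s t X).Nonempty → 2 * K ≤ ∑ e ∈ L ∩ dl s t X, m e)
    (hc : ∀ X : Finset V, ∀ f ∈ L ∩ dl s t X, 0 < m f →
      n - 1 ≤ ∑ e ∈ (L ∩ dl s t X).erase f, c e) :
    ∃ R : E → Finset (ℕ × Fin n), (∀ e, R e ⊆ JJ n K ∧ (R e).card = (K - m e) * (n - 2 * c e)) ∧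
      ∀ (i : ℕ × Fin n) (X : Finset V), i ∈ JJ n K →
        (L ∩ dl s t X).Nonempty → 2 ≤ ((L.filter (fun e => i ∉ R e)) ∩ dl s t X).card := by
  classical
  have hKQ : (0 : ℚ) < K := by exact_mod_cast hK
  have hfil : ∀ X : Finset V, L.filter (fun e => ¬ (s e ∈ X ↔ t e ∈ X)) = L ∩ dl s t X := by
    intro X
    ext e
    rw [Finset.mem_filter, Finset.mem_inter, mem_dl]
  obtain ⟨B, hB1, hB2, hB3⟩ := pack0 s t L m (fun e => (m e : ℚ) / K) K
    (fun e => by positivity)
    (fun e => by rw [div_mul_cancel₀ _ hKQ.ne'])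
    (by
      intro X hX
      rw [hfil]
      obtain ⟨e, he, he'⟩ := hX
      have h1 := hm X ⟨e, Finset.mem_inter.2 ⟨he, mem_dl.2 he'⟩⟩
      rw [← Finset.sum_div, le_div_iff₀ hKQ]
      exact_mod_cast h1)
  have htree : ∀ q, 1 ≤ q → q ≤ K → ∃ T ⊆ B q, ∃ A : E → Finset (Fin n), sp s t T = sp s t L ∧
      (∀ e, (A e).card ≤ 2 * c e) ∧ ∀ (X : Finset V) (f : E), T ∩ dl s t X = {f} →
        ∀ k : Fin n, ∃ e ∈ (L \ T) ∩ dl s t X, k ∈ A e := by
    intro q hq1 hq3
    obtain ⟨T, hT1, hT2, hT3⟩ := exists_forest s t (B q)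
    have hsp := hT2.trans (hB2 q hq1 hq3)
    obtain ⟨A, hA1, hA2⟩ := chord_pairs s t L T (hT1.trans (hB1 q)) hsp hT3 n hn c (by
      intro X f hf
      have hfT : f ∈ T ∩ dl s t X := by rw [hf]; simp
      rw [Finset.mem_inter] at hfT
      have hfL : f ∈ L ∩ dl s t X := Finset.mem_inter.2 ⟨hB1 q (hT1 hfT.1), hfT.2⟩
      refine hc X f hfL ?_
      have h1 : q ∈ (Finset.Icc 1 K).filter (fun q => f ∈ B q) := by
        rw [Finset.mem_filter, Finset.mem_Icc]
        exact ⟨⟨hq1, hq3⟩, hT1 hfT.1⟩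
      exact lt_of_lt_of_le (Finset.card_pos.2 ⟨q, h1⟩) (hB3 f))
    exact ⟨T, hT1, A, hsp, hA1, hA2⟩
  choose! T hT1 A hTsp hA1 hA2 using htree
  have hQ : ∀ e, ∃ Q ⊆ (Finset.Icc 1 K).filter (fun q => e ∉ T q), Q.card = K - m e := by
    intro e
    refine Finset.exists_subset_card_eq ?_
    have h1 : (Finset.Icc 1 K).filter (fun q => e ∈ T q) ⊆
        (Finset.Icc 1 K).filter (fun q => e ∈ B q) := by
      intro q hq
      rw [Finset.mem_filter, Finset.mem_Icc] at hq ⊢
      exact ⟨hq.1, hT1 q hq.1.1 hq.1.2 hq.2⟩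
    have h2 := (Finset.card_le_card h1).trans (hB3 e)
    have h4 := Finset.card_filter_add_card_filter_not (s := Finset.Icc 1 K) (fun q => e ∈ T q)
    rw [Nat.card_Icc] at h4
    omega
  choose Q hQs hQc using hQ
  have hcol : ∀ e q, ∃ D : Finset (Fin n), 1 ≤ q → q ≤ K →
      D ⊆ Finset.univ \ A q e ∧ D.card = n - 2 * c e := by
    intro e q
    by_cases hq : 1 ≤ q ∧ q ≤ K
    · have h1 : n - 2 * c e ≤ (Finset.univ \ A q e).card := by
        rw [Finset.card_sdiff_of_subset (Finset.subset_univ _), Finset.card_univ, Fintype.card_fin]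
        have := hA1 q hq.1 hq.2 e
        omega
      obtain ⟨D, hD1, hD2⟩ := Finset.exists_subset_card_eq h1
      exact ⟨D, fun _ _ => ⟨hD1, hD2⟩⟩
    · exact ⟨∅, fun h1 h2 => absurd ⟨h1, h2⟩ hq⟩
  choose D hD using hcol
  refine ⟨fun e => (Q e).biUnion (fun q => (D e q).image (fun r => (q, r))), ?_, ?_⟩
  · intro e
    have hqr : ∀ q ∈ Q e, 1 ≤ q ∧ q ≤ K := by
      intro q hq
      exact Finset.mem_Icc.1 (Finset.mem_filter.1 (hQs e hq)).1
    refine ⟨?_, ?_⟩
    · intro i hi
      rw [Finset.mem_biUnion] at hi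
      obtain ⟨q, hq, hi⟩ := hi
      rw [Finset.mem_image] at hi
      obtain ⟨r, _, rfl⟩ := hi
      rw [Finset.mem_product]
      exact ⟨(Finset.mem_filter.1 (hQs e hq)).1, Finset.mem_univ _⟩
    · rw [Finset.card_biUnion]
      · rw [Finset.sum_congr rfl (g := fun _ => n - 2 * c e)]
        · rw [Finset.sum_const, hQc, smul_eq_mul]
        · intro q hq
          rw [Finset.card_image_of_injective]
          · exact (hD e q (hqr q hq).1 (hqr q hq).2).2
          · intro r r' h
            exact (Prod.mk.inj h).2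
      · intro q _ q' _ hne
        rw [Function.onFun, Finset.disjoint_left]
        intro i hi hi'
        rw [Finset.mem_image] at hi hi'
        obtain ⟨r, _, rfl⟩ := hi
        obtain ⟨r', _, h⟩ := hi'
        exact hne (Prod.mk.inj h).1.symm
  · rintro ⟨q, r⟩ X hi hX
    rw [Finset.mem_product, Finset.mem_Icc] at hi
    obtain ⟨⟨hqa, hqb⟩, -⟩ := hi
    simp only at hqa hqb
    have hTsub : T q ⊆ L := (hT1 q hqa hqb).trans (hB1 q)
    have hnotR : ∀ e, (e ∈ T q ∨ r ∈ A q e) →
        (q, r) ∉ (Q e).biUnion (fun q => (D e q).image (fun r => (q, r))) := by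
      intro e he h
      rw [Finset.mem_biUnion] at h
      obtain ⟨q', hq', h⟩ := h
      rw [Finset.mem_image] at h
      obtain ⟨r', hr', heq⟩ := h
      rw [Prod.mk.injEq] at heq
      obtain ⟨rfl, rfl⟩ := heq
      rcases he with he | he
      · exact (Finset.mem_filter.1 (hQs e hq')).2 he
      · exact (Finset.mem_sdiff.1 ((hD e q' hqa hqb).1 hr')).2 he
    have hTin : T q ∩ dl s t X ⊆
        (L.filter (fun e => (q, r) ∉ (Q e).biUnion
          (fun q => (D e q).image (fun r => (q, r))))) ∩ dl s t X := by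
      intro e he
      rw [Finset.mem_inter] at he ⊢
      rw [Finset.mem_filter]
      exact ⟨⟨hTsub he.1, hnotR e (Or.inl he.1)⟩, he.2⟩
    have hne : (T q ∩ dl s t X).Nonempty := by
      by_contra hcon
      rw [Finset.not_nonempty_iff_eq_empty] at hcon
      obtain ⟨e, he⟩ := hX
      rw [Finset.mem_inter] at he
      have h1 : bd s t e ∈ sp s t (T q) := by
        rw [hTsp q hqa hqb]
        exact Submodule.subset_span ⟨e, by exact_mod_cast he.1, rfl⟩
      obtain ⟨J, hJ, hJbd⟩ := exists_subset_sum s t (T q) _ h1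
      have h2 : cf X (bdS s t J) = 0 := by
        rw [cf_bdS]
        have : J ∩ dl s t X = ∅ := by
          apply Finset.subset_empty.1
          rw [← hcon]
          exact Finset.inter_subset_inter_right hJ
        rw [this]; simp
      have h4 : bdS s t J = bd s t e := hJbd
      rw [h4, cf_bd, if_pos (mem_dl.1 he.2)] at h2
      exact absurd h2 (by decide)
    by_cases htwo : 2 ≤ (T q ∩ dl s t X).card
    · exact htwo.trans (Finset.card_le_card hTin)
    · have hone : (T q ∩ dl s t X).card = 1 := by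
        have := Finset.card_pos.2 hne
        omega
      obtain ⟨f, hf⟩ := Finset.card_eq_one.1 hone
      obtain ⟨g, hg, hgr⟩ := hA2 q hqa hqb X f hf r
      rw [Finset.mem_inter, Finset.mem_sdiff] at hg
      have hfT : f ∈ T q ∩ dl s t X := by rw [hf]; simp
      have hfg : f ≠ g := by
        rintro rfl
        exact hg.1.2 (Finset.mem_inter.1 hfT).1
      have hsub : ({f, g} : Finset E) ⊆
          (L.filter (fun e => (q, r) ∉ (Q e).biUnion
            (fun q => (D e q).image (fun r => (q, r))))) ∩ dl s t X := by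
        intro x hx
        rw [Finset.mem_insert, Finset.mem_singleton] at hx
        rcases hx with rfl | rfl
        · exact hTin hfT
        · rw [Finset.mem_inter, Finset.mem_filter]
          exact ⟨⟨hg.1.1, hnotR _ (Or.inr hgr)⟩, hg.2⟩
      have := Finset.card_le_card hsub
      rwa [Finset.card_pair hfg] at this

end Pool.Agent.H31.Near
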