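import Mathlib
import Pool.Agent.H31.Near.SysP

set_option autoImplicit false

/-! The class system for nested levels. -/

namespace Pool.Agent.H31.Near

open Module Pool.Agent.H46.Faith

set_option linter.unusedSectionVars false

variable {V E : Type} [Fintype V] [DecidableEq V] [Fintype E] [DecidableEq E]

/-- one level: the edges with `k e = κ`, after contracting the edges with `k e > κ` -/
lemma level_one (s t : E → V) (n : ℕ) (hn : 2 ≤ n) (k m c : E → ℕ)
    (hm : ∀ X : Finset V, ∀ f ∈ dl s t X, (∀ e ∈ dl s t X, k e ≤ k f) →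
      2 * k f ≤ ∑ e ∈ (dl s t X).filter (fun e => k e = k f), m e)
    (hc : ∀ X : Finset V, ∀ f ∈ dl s t X, (∀ e ∈ dl s t X, k e ≤ k f) → 0 < m f →
      n - 1 ≤ ∑ e ∈ ((dl s t X).erase f).filter (fun e => k e = k f), c e)
    (κ : ℕ) (hκ : 1 ≤ κ) :
    ∃ R : E → Finset (ℕ × Fin n), (∀ e, R e ⊆ JJ n κ ∧ (R e).card = (κ - m e) * (n - 2 * c e)) ∧
      ∀ (i : ℕ × Fin n) (X : Finset V), i ∈ JJ n κ → ∀ f ∈ dl s t X, k f = κ →
        (∀ e ∈ dl s t X, k e ≤ κ) →
        2 ≤ ((Finset.univ.filter (fun e => k e = κ ∧ i ∉ R e)) ∩ dl s t X).card := by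
  classical
  set H : Finset E := Finset.univ.filter (fun e => κ < k e) with hH
  set rep : V → V := fun v => (Quotient.mk (connSetoid s t H) v).out with hrep
  have hrep1 : ∀ v, Conn s t H v (rep v) := by
    intro v
    have : (Quotient.mk (connSetoid s t H) (rep v)) = Quotient.mk (connSetoid s t H) v :=
      Quotient.out_eq _
    exact (Quotient.exact this).symm
  have hrep2 : ∀ u v, Conn s t H u v → rep u = rep v := by
    intro u v h
    have : (Quotient.mk (connSetoid s t H) u) = Quotient.mk (connSetoid s t H) v :=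
      Quotient.sound h
    simp only [hrep]
    rw [this]
  set s' : E → V := fun e => rep (s e) with hs'
  set t' : E → V := fun e => rep (t e) with ht'
  set L : Finset E := Finset.univ.filter (fun e => k e = κ) with hL
  -- cuts of the contracted graph
  have hpre : ∀ X : Finset V, dl s' t' X = dl s t (Finset.univ.filter (fun v => rep v ∈ X)) := by
    intro X
    ext e
    rw [mem_dl, mem_dl, Finset.mem_filter, Finset.mem_filter]
    simp [hs', ht']
  have hno : ∀ X : Finset V, ∀ e ∈ dl s t (Finset.univ.filter (fun v => rep v ∈ X)), k e ≤ κ := by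
    intro X e he
    by_contra hcon
    have h1 : e ∈ H := by
      rw [hH, Finset.mem_filter]
      exact ⟨Finset.mem_univ _, by omega⟩
    have h2 : rep (s e) = rep (t e) := hrep2 _ _ (Conn.edge h1)
    rw [mem_dl, Finset.mem_filter, Finset.mem_filter] at he
    simp [h2] at he
  have hLX : ∀ (Y : Finset V) (f : E), k f = κ →
      L ∩ dl s t Y = (dl s t Y).filter (fun e => k e = k f) := by
    intro Y f hf
    ext e
    simp only [hL, Finset.mem_inter, Finset.mem_filter, Finset.mem_univ, true_and, hf]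
    tauto
  obtain ⟨R, hR1, hR2⟩ := class_system2 s' t' L n κ hn hκ m c (by
      rintro X ⟨f, hf⟩
      rw [hpre, Finset.mem_inter] at hf
      have hkf : k f = κ := by simpa [hL] using hf.1
      have h1 := hm _ f hf.2 (fun e he => by rw [hkf]; exact hno X e he)
      rw [hpre, hLX _ f hkf]
      rw [← hkf]
      exact h1) (by
      intro X f hf hmf
      rw [hpre, Finset.mem_inter] at hf
      have hkf : k f = κ := by simpa [hL] using hf.1
      have h1 := hc _ f hf.2 (fun e he => by rw [hkf]; exact hno X e he) hmf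
      rw [hpre, hLX _ f hkf]
      refine h1.trans (le_of_eq ?_)
      refine Finset.sum_congr ?_ (fun _ _ => rfl)
      ext e
      simp only [Finset.mem_filter, Finset.mem_erase]
      tauto)
  refine ⟨R, hR1, ?_⟩
  intro i X hi f hf hkf hmax
  have hclosed : ∀ v, rep v ∈ X ↔ v ∈ X := by
    intro v
    by_contra hcon
    have h1 : ¬ (v ∈ X ↔ rep v ∈ X) := fun h => hcon h.symm
    have h2 : ∃ c ∈ H, c ∈ dl s t X := by
      by_cases hv : v ∈ X
      · exact (hrep1 v).cut X hv (fun h => h1 (iff_of_true hv h))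
      · have hr : rep v ∈ X := by
          by_contra h
          exact h1 (iff_of_false hv h)
        exact (hrep1 v).symm.cut X hr hv
    obtain ⟨e, he, heX⟩ := h2
    have := hmax e heX
    rw [hH, Finset.mem_filter] at he
    omega
  have hdl : dl s' t' X = dl s t X := by
    ext e
    rw [mem_dl, mem_dl]
    simp only [hs', ht', hclosed]
  have h3 := hR2 i X hi ⟨f, by
    rw [hdl, Finset.mem_inter]
    exact ⟨by simp [hL, hkf], hf⟩⟩
  rw [hdl] at h3
  refine h3.trans (Finset.card_le_card ?_)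
  refine Finset.inter_subset_inter_right ?_
  intro e he
  simp only [hL, Finset.mem_filter, Finset.mem_univ, true_and] at he ⊢
  exact he

theorem level_system (s t : E → V) (n : ℕ) (hn : 2 ≤ n) (k m c : E → ℕ)
    (hm : ∀ X : Finset V, ∀ f ∈ dl s t X, (∀ e ∈ dl s t X, k e ≤ k f) →
      2 * k f ≤ ∑ e ∈ (dl s t X).filter (fun e => k e = k f), m e)
    (hc : ∀ X : Finset V, ∀ f ∈ dl s t X, (∀ e ∈ dl s t X, k e ≤ k f) → 0 < m f →
      n - 1 ≤ ∑ e ∈ ((dl s t X).erase f).filter (fun e => k e = k f), c e) :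
    ∃ R : E → Finset (ℕ × Fin n),
      (∀ e, R e ⊆ JJ n (k e) ∧ (R e).card = (k e - m e) * (n - 2 * c e)) ∧
      ∀ (i : ℕ × Fin n) (X : Finset V), (∃ e ∈ dl s t X, i ∈ JJ n (k e)) →
        2 ≤ ((Finset.univ.filter (fun e => i ∈ JJ n (k e) ∧ i ∉ R e)) ∩ dl s t X).card := by
  classical
  have h1 : ∀ κ, ∃ R : E → Finset (ℕ × Fin n), 1 ≤ κ →
      (∀ e, R e ⊆ JJ n κ ∧ (R e).card = (κ - m e) * (n - 2 * c e)) ∧
      ∀ (i : ℕ × Fin n) (X : Finset V), i ∈ JJ n κ → ∀ f ∈ dl s t X, k f = κ →
        (∀ e ∈ dl s t X, k e ≤ κ) →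
        2 ≤ ((Finset.univ.filter (fun e => k e = κ ∧ i ∉ R e)) ∩ dl s t X).card := by
    intro κ
    by_cases hκ : 1 ≤ κ
    · obtain ⟨R, h2, h3⟩ := level_one s t n hn k m c hm hc κ hκ
      exact ⟨R, fun _ => ⟨h2, h3⟩⟩
    · exact ⟨fun _ => ∅, fun h => absurd h hκ⟩
  choose R hR using h1
  refine ⟨fun e => if 1 ≤ k e then R (k e) e else ∅, ?_, ?_⟩
  · intro e
    by_cases he : 1 ≤ k e
    · simp only [if_pos he]
      exact (hR (k e) he).1 e
    · simp only [if_neg he]
      have : k e = 0 := by omega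
      rw [this]
      simp
  · rintro i X ⟨e, he, hei⟩
    obtain ⟨f, hf, hmax⟩ := Finset.exists_max_image (dl s t X) k ⟨e, he⟩
    rw [Finset.mem_product, Finset.mem_Icc] at hei
    have hkf : 1 ≤ k f := hei.1.1.trans (hei.1.2.trans (hmax e he))
    have hif : i ∈ JJ n (k f) := by
      rw [Finset.mem_product, Finset.mem_Icc]
      exact ⟨⟨hei.1.1, hei.1.2.trans (hmax e he)⟩, Finset.mem_univ _⟩
    refine ((hR (k f) hkf).2 i X hif f hf rfl hmax).trans (Finset.card_le_card ?_)
    refine Finset.inter_subset_inter_right ?_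
    intro g hg
    rw [Finset.mem_filter] at hg ⊢
    obtain ⟨_, hg1, hg2⟩ := hg
    refine ⟨Finset.mem_univ _, ?_, ?_⟩
    · rw [hg1]; exact hif
    · show i ∉ (if 1 ≤ k g then R (k g) g else ∅)
      rw [hg1, if_pos hkf]
      exact hg2

end Pool.Agent.H31.Near
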