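import Mathlib
import Pool.Agent.H31.Near.Layered
import Pool.Agent.H31.Near.Lev

set_option autoImplicit false

/-! The theorem on weights in windows, with nested levels and with equal weights on cuts of two
edges. -/

namespace Pool.Agent.H31.Near

open Module Pool.Agent.H46.Faith

set_option linter.unusedSectionVars false

variable {V E : Type} [Fintype V] [DecidableEq V] [Fintype E] [DecidableEq E]

theorem hier (s t : E → V) (n a b : ℕ) (hn : 2 ≤ n) (ha : 1 ≤ a) (hb : 1 ≤ b) (k m c w : E → ℕ)
    (hw : wbd s t w = 0)
    (hm : ∀ X : Finset V, ∀ f ∈ dl s t X, (∀ e ∈ dl s t X, k e ≤ k f) →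
      2 * k f ≤ ∑ e ∈ (dl s t X).filter (fun e => k e = k f), m e)
    (hc : ∀ X : Finset V, ∀ f ∈ dl s t X, (∀ e ∈ dl s t X, k e ≤ k f) → 0 < m f →
      n - 1 ≤ ∑ e ∈ ((dl s t X).erase f).filter (fun e => k e = k f), c e)
    (hwin : ∀ e, Wn (w e) ((n * k e - (k e - m e) * (n - 2 * c e)) * (4 * a + 6 * b))
      ((k e - m e) * (n - 2 * c e)) (4 * a + 6 * b)) : w ∈ Cov s t := by
  classical
  obtain ⟨R, hR1, hR2⟩ := level_system s t n hn k m c hm hc
  obtain ⟨N, hN⟩ : ∃ N, ∀ e, k e ≤ N :=
    ⟨∑ e, k e, fun e => Finset.single_le_sum (f := k) (fun _ _ => Nat.zero_le _)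
      (Finset.mem_univ e)⟩
  refine layered s t (JJ n N) (fun e => JJ n (k e)) R ?_ (fun e => (hR1 e).1) ?_ a b ha hb w hw ?_
  · intro e i hi
    rw [Finset.mem_product, Finset.mem_Icc] at hi ⊢
    exact ⟨⟨hi.1.1, hi.1.2.trans (hN e)⟩, hi.2⟩
  · intro i _ X hX
    exact hR2 i X hX
  · intro e
    rw [card_JJ, (hR1 e).2]
    exact hwin e

lemma lift_cov (s t : E → V) (e f : E) (X : Finset V) (hX : dl s t X = {e, f}) (hef : e ≠ f)
    (w : E → ℕ) (hwef : w e = w f)
    (h : w ∈ Cov (fun x => ctr (s e) (t e) (s x)) (fun x => ctr (s e) (t e) (t x))) :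
    w ∈ Cov s t := by
  classical
  have heX : e ∈ dl s t X := by rw [hX]; simp
  have hfX : f ∈ dl s t X := by rw [hX]; simp
  have hab : s e ≠ t e := by
    intro h
    have := mem_dl.1 heX
    rw [h] at this
    exact this Iff.rfl
  have hca : ctr (s e) (t e) (s e) = s e := by simp [ctr, hab]
  have hcb : ctr (s e) (t e) (t e) = s e := by simp [ctr]
  have key : ∀ y ∈ Cov (fun x => ctr (s e) (t e) (s x)) (fun x => ctr (s e) (t e) (t x)),
      Function.update y e (y f) ∈ Cov s t := by
    intro y hy
    unfold Cov at hy
    induction hy using AddSubmonoid.closure_induction with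
    | mem y hy =>
      obtain ⟨H, hH, rfl⟩ := hy
      have hH0 : bdS (fun x => ctr (s e) (t e) (s x)) (fun x => ctr (s e) (t e) (t x))
          (H.erase e) = 0 := by
        by_cases heH : e ∈ H
        · rw [bdS_erase _ _ H e heH, hH, zero_add]
          unfold bd
          simp only [hca, hcb]
          exact dbl _
        · rw [Finset.erase_eq_of_notMem heH]
          exact hH
      have hcf : cf X (bdS s t (H.erase e)) = if f ∈ H then 1 else 0 := by
        rw [cf_bdS, hX]
        by_cases hfH : f ∈ H
        · rw [if_pos hfH]
          have : H.erase e ∩ {e, f} = {f} := by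
            ext x
            simp only [Finset.mem_inter, Finset.mem_erase, Finset.mem_insert,
              Finset.mem_singleton]
            constructor
            · rintro ⟨⟨h1, _⟩, h3⟩
              exact h3.resolve_left h1
            · rintro rfl
              exact ⟨⟨hef.symm, hfH⟩, Or.inr rfl⟩
          rw [this]; simp
        · rw [if_neg hfH]
          have : H.erase e ∩ {e, f} = ∅ := by
            ext x
            simp only [Finset.mem_inter, Finset.mem_erase, Finset.mem_insert,
              Finset.mem_singleton, Finset.notMem_empty, iff_false]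
            rintro ⟨⟨h1, h2⟩, h3⟩
            rcases h3 with h3 | h3
            · exact h1 h3
            · exact hfH (h3 ▸ h2)
          rw [this]; simp
      have hcfe : cf X (bd s t e) = 1 := by rw [cf_bd, if_pos (mem_dl.1 heX)]
      by_cases hfH : f ∈ H
      · have h2 : Function.update (indN H) e (indN H f) = indN (insert e (H.erase e)) := by
          funext x
          by_cases hx : x = e
          · subst hx
            rw [Function.update_self]
            simp [indN, hfH]
          · rw [Function.update_of_ne hx]
            simp [indN, hx]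
        rw [h2]
        refine indN_mem_Cov s t _ ?_
        rw [bdS_insert s t _ e (Finset.notMem_erase e H)]
        rcases ctr_bdS s t (s e) (t e) hab _ hH0 with h3 | h3
        · exfalso
          rw [h3, map_zero, if_pos hfH] at hcf
          exact absurd hcf (by decide)
        · rw [h3]
          exact dbl _
      · have h2 : Function.update (indN H) e (indN H f) = indN (H.erase e) := by
          funext x
          by_cases hx : x = e
          · subst hx
            rw [Function.update_self]
            simp [indN, hfH]
          · rw [Function.update_of_ne hx]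
            simp [indN, hx]
        rw [h2]
        refine indN_mem_Cov s t _ ?_
        rcases ctr_bdS s t (s e) (t e) hab _ hH0 with h3 | h3
        · exact h3
        · exfalso
          have h4 : cf X (bdS s t (H.erase e)) = 1 := by
            rw [h3]
            exact hcfe
          rw [h4, if_neg hfH] at hcf
          exact absurd hcf (by decide)
    | zero =>
      have : Function.update (0 : E → ℕ) e ((0 : E → ℕ) f) = 0 := by
        funext x
        by_cases hx : x = e
        · subst hx; rw [Function.update_self]; rfl
        · rw [Function.update_of_ne hx]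
      rw [this]
      exact zero_mem _
    | add x y _ _ hx hy =>
      have : Function.update (x + y) e ((x + y) f) =
          Function.update x e (x f) + Function.update y e (y f) := by
        funext z
        by_cases hz : z = e
        · subst hz
          rw [Function.update_self, Pi.add_apply, Pi.add_apply, Function.update_self,
            Function.update_self]
        · rw [Function.update_of_ne hz, Pi.add_apply, Pi.add_apply, Function.update_of_ne hz,
            Function.update_of_ne hz]
      rw [this]
      exact add_mem hx hy
  have h1 := key w h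
  have h2 : Function.update w e (w f) = w := by
    rw [← hwef]
    exact Function.update_eq_self e w
  rwa [h2] at h1

theorem hier2 (n a b : ℕ) (hn : 2 ≤ n) (ha : 1 ≤ a) (hb : 1 ≤ b) (k m c w : E → ℕ)
    (hwin : ∀ e, Wn (w e) ((n * k e - (k e - m e) * (n - 2 * c e)) * (4 * a + 6 * b))
      ((k e - m e) * (n - 2 * c e)) (4 * a + 6 * b)) :
    ∀ (N : ℕ) (s t : E → V), (Finset.univ.filter (fun e => s e ≠ t e)).card ≤ N →
    (∀ X, Even (∑ e ∈ dl s t X, w e)) →
    (∀ X : Finset V, (∃ e f, e ≠ f ∧ dl s t X = {e, f} ∧ w e = w f) ∨
      ∀ f ∈ dl s t X, (∀ e ∈ dl s t X, k e ≤ k f) →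
        2 * k f ≤ ∑ e ∈ (dl s t X).filter (fun e => k e = k f), m e ∧
        (0 < m f → n - 1 ≤ ∑ e ∈ ((dl s t X).erase f).filter (fun e => k e = k f), c e)) →
    w ∈ Cov s t := by
  classical
  intro N
  induction N with
  | zero =>
    intro s t hN heven hcut
    have h0 : ∀ X : Finset V, dl s t X = ∅ := by
      intro X
      rw [Finset.eq_empty_iff_forall_notMem]
      intro e he
      have h1 : e ∈ Finset.univ.filter (fun e => s e ≠ t e) := by
        rw [Finset.mem_filter]
        refine ⟨Finset.mem_univ _, ?_⟩
        intro h
        rw [mem_dl, h] at he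
        exact he Iff.rfl
      have h2 := Finset.card_pos.2 ⟨e, h1⟩
      omega
    refine hier s t n a b hn ha hb k m c w (wbd_of_even s t w heven) ?_ ?_ hwin
    · intro X f hf
      rw [h0 X] at hf
      simp at hf
    · intro X f hf
      rw [h0 X] at hf
      simp at hf
  | succ N ih =>
    intro s t hN heven hcut
    by_cases htwo : ∃ X : Finset V, ∃ e f, e ≠ f ∧ dl s t X = {e, f} ∧ w e = w f
    swap
    · have hall : ∀ X : Finset V, ∀ f ∈ dl s t X, (∀ e ∈ dl s t X, k e ≤ k f) →
          2 * k f ≤ ∑ e ∈ (dl s t X).filter (fun e => k e = k f), m e ∧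
          (0 < m f → n - 1 ≤ ∑ e ∈ ((dl s t X).erase f).filter (fun e => k e = k f), c e) := by
        intro X
        exact (hcut X).resolve_left (fun h => htwo ⟨X, h⟩)
      exact hier s t n a b hn ha hb k m c w (wbd_of_even s t w heven)
        (fun X f hf hmax => (hall X f hf hmax).1) (fun X f hf hmax => (hall X f hf hmax).2) hwin
    · obtain ⟨X, e, f, hef, hX, hwef⟩ := htwo
      have heX : e ∈ dl s t X := by rw [hX]; simp
      have hab : s e ≠ t e := by
        intro h
        have := mem_dl.1 heX
        rw [h] at this
        exact this Iff.rfl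
      have hca : ctr (s e) (t e) (s e) = s e := by simp [ctr, hab]
      have hcb : ctr (s e) (t e) (t e) = s e := by simp [ctr]
      have hpre : ∀ Y : Finset V, dl (fun x => ctr (s e) (t e) (s x))
          (fun x => ctr (s e) (t e) (t x)) Y =
          dl s t (Finset.univ.filter (fun v => ctr (s e) (t e) v ∈ Y)) := by
        intro Y
        ext x
        rw [mem_dl, mem_dl]
        simp
      refine lift_cov s t e f X hX hef w hwef (ih _ _ ?_ ?_ ?_)
      · have hsub : Finset.univ.filter (fun x => ctr (s e) (t e) (s x) ≠ ctr (s e) (t e) (t x)) ⊆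
            (Finset.univ.filter (fun x => s x ≠ t x)).erase e := by
          intro x hx
          rw [Finset.mem_filter] at hx
          rw [Finset.mem_erase, Finset.mem_filter]
          refine ⟨?_, Finset.mem_univ _, ?_⟩
          · rintro rfl
            exact hx.2 (hca.trans hcb.symm)
          · intro h
            apply hx.2
            rw [h]
        have h1 := Finset.card_le_card hsub
        have h2 : e ∈ Finset.univ.filter (fun x => s x ≠ t x) := by
          rw [Finset.mem_filter]
          exact ⟨Finset.mem_univ _, hab⟩
        have h3 := Finset.card_erase_lt_of_mem h2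
        omega
      · intro Y
        rw [hpre]
        exact heven _
      · intro Y
        rw [hpre]
        exact hcut _

end Pool.Agent.H31.Near
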